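import Pool.Agent.MP_118ac5_nt.Final

/-! The integer `15595` has no decomposition `k + m` with `k, m ≥ 3` for which
`q (φ k * φ m / 4) + 1` is prime, `q` being the strict partition function. -/

namespace Pool.Agent.Results.MP_118ac5_nt.Counterexample

theorem result : ∀ k m : ℕ, 3 ≤ k → 3 ≤ m → k + m = 15595 →
    ¬ Nat.Prime ((Nat.Partition.distincts (Nat.totient k * Nat.totient m / 4)).card + 1) :=
  fun k m hk hm h => Pool.Agent.MP_118ac5_nt.final k m hk hm h

end Pool.Agent.Results.MP_118ac5_nt.Counterexample
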